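import Pool.Agent.Helper16.RC.Defs

set_option autoImplicit false

open MeasureTheory

namespace Pool.Agent.Helper16.RC

theorem avg_list (G : ℕ × ℕ × ℕ × ℤ → ℝ → ℝ) (M : ℕ × ℕ × ℕ × ℤ → ℝ)
    (hG : ∀ t, IntervalIntegrable (G t) volume 0 (2 * Real.pi))
    (hM : ∀ t, (2 * Real.pi)⁻¹ * ∫ θ in (0:ℝ)..(2 * Real.pi), G t θ = M t)
    (L : List (ℕ × ℕ × ℕ × ℤ)) :
    IntervalIntegrable (fun θ => (L.map fun t => (t.2.2.2 : ℝ) * G t θ).sum) volume 0
      (2 * Real.pi) ∧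
    (2 * Real.pi)⁻¹ * ∫ θ in (0:ℝ)..(2 * Real.pi), (L.map fun t => (t.2.2.2 : ℝ) * G t θ).sum =
      (L.map fun t => (t.2.2.2 : ℝ) * M t).sum := by
  induction L with
  | nil => simp
  | cons t L ih =>
    obtain ⟨ih1, ih2⟩ := ih
    have h1 : IntervalIntegrable (fun θ => (t.2.2.2 : ℝ) * G t θ) volume 0 (2 * Real.pi) :=
      (hG t).const_mul _
    refine ⟨?_, ?_⟩
    · simp only [List.map_cons, List.sum_cons]
      exact h1.add ih1
    · simp only [List.map_cons, List.sum_cons]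
      rw [intervalIntegral.integral_add h1 ih1, mul_add, ih2, intervalIntegral.integral_const_mul,
        ← hM t]
      ring

theorem nrm_w (k i j : ℕ) :
    ‖((k : ℂ) + ((j : ℂ) - (i : ℂ)) * Complex.I)‖ =
      √(((k : ℝ)) ^ 2 + ((j : ℝ) - (i : ℝ)) ^ 2) := by
  have h : ((k : ℂ) + ((j : ℂ) - (i : ℂ)) * Complex.I) =
      (((k : ℝ) : ℂ) + (((j : ℝ) - (i : ℝ) : ℝ) : ℂ) * Complex.I) := by
    push_cast; ring
  rw [h, Complex.norm_add_mul_I]

theorem sum_Lst (m : ℝ → ℝ) :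
    (Lst.map fun t => (t.2.2.2 : ℝ) *
      m ‖((t.1 : ℂ) + ((t.2.2.1 : ℂ) - (t.2.1 : ℂ)) * Complex.I)‖).sum =
      228 * m 1 + 88 * m √2 + 208 * m 2 + 52 * m √5 + 86 * m √8 := by
  simp only [nrm_w]
  have h4 : √(4:ℝ) = 2 := by
    rw [show (4:ℝ) = 2 ^ 2 by norm_num]; exact Real.sqrt_sq (by norm_num)
  simp only [Lst, List.map_cons, List.map_nil, List.sum_cons, List.sum_nil]
  norm_num [h4]
  ring

theorem st_FIN (h1 : ST_AVG) (h2 : ST_LOC) : ST_FIN := by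
  intro c hc
  by_contra hno
  push Not at hno
  obtain ⟨K, hK⟩ := h2 c hc (fun m n hm hn => hno m n hm hn)
  have hpi : 3 < Real.pi := Real.pi_gt_three
  have hKa := le_abs_self K
  have hK0 := abs_nonneg K
  obtain ⟨g, hg, hb, hz, hgg, hu⟩ := hK (10 + 10 * |K|) (by linarith)
  obtain ⟨hint, m, hm, hpos⟩ := h1 g (10 + 10 * |K|) hg hb hz
  obtain ⟨hI, hA⟩ := avg_list
    (fun t θ => ∫ x, g x * g (x + Complex.exp (θ * Complex.I) *
      ((t.1 : ℂ) + ((t.2.2.1 : ℂ) - (t.2.1 : ℂ)) * Complex.I)))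
    (fun t => m ‖((t.1 : ℂ) + ((t.2.2.1 : ℂ) - (t.2.1 : ℂ)) * Complex.I)‖)
    (fun t => hint _) (fun t => hm _) Lst
  rw [sum_Lst] at hA
  set R : ℝ := 10 + 10 * |K| with hR
  have hle : ∫ θ in (0:ℝ)..(2 * Real.pi), (Lst.map fun t => (t.2.2.2 : ℝ) *
      ∫ x, g x * g (x + Complex.exp (θ * Complex.I) *
        ((t.1 : ℂ) + ((t.2.2.1 : ℂ) - (t.2.1 : ℂ)) * Complex.I))).sum ≤
      ∫ θ in (0:ℝ)..(2 * Real.pi), (-70 * Real.pi * R ^ 2 + K * R) := by
    refine intervalIntegral.integral_mono_on (by positivity) hI intervalIntegrable_const ?_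
    intro θ _
    exact hu _ (Complex.norm_exp_ofReal_mul_I θ)
  rw [intervalIntegral.integral_const, smul_eq_mul, sub_zero] at hle
  have h2pi : (0:ℝ) < 2 * Real.pi := by positivity
  have hle2 : 228 * m 1 + 88 * m √2 + 208 * m 2 + 52 * m √5 + 86 * m √8 ≤
      -70 * Real.pi * R ^ 2 + K * R := by
    rw [← hA]
    calc (2 * Real.pi)⁻¹ * _ ≤ (2 * Real.pi)⁻¹ *
        (2 * Real.pi * (-70 * Real.pi * R ^ 2 + K * R)) :=
          mul_le_mul_of_nonneg_left hle (by positivity)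
      _ = -70 * Real.pi * R ^ 2 + K * R := by
          rw [← mul_assoc, inv_mul_cancel₀ h2pi.ne', one_mul]
  rw [hgg] at hpos
  have hRp : 0 < R := by rw [hR]; linarith
  have h3 : 0 ≤ K * R - Real.pi / 10 * R ^ 2 := by nlinarith
  have h4 : 0 ≤ R * (K - Real.pi / 10 * R) := by nlinarith
  have h5 : 0 ≤ K - Real.pi / 10 * R := by
    by_contra hlt
    push Not at hlt
    nlinarith
  have h6 : Real.pi / 10 * R ≥ 3 / 10 * R := by nlinarith
  rw [hR] at h6 h5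
  nlinarith

end Pool.Agent.Helper16.RC
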